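import Pool.Agent.H65.Bur3

namespace Pool.Agent.Results.MP_5cc51b_al.Burillo

open Pool.Agent.H65.Squier

/-- Every finitely generated diagram group has the Burillo property. -/
theorem result (A : Type) (R : Set (List A × List A)) (hR : ∀ r ∈ R, r.1 ≠ [] ∧ r.2 ≠ [])
    (w : Vtx R) (S : Set (DiagramGroup R w)) (hS : S.Finite) (h : Subgroup.closure S = ⊤) :
    ∃ C : ℕ, 1 ≤ C ∧ ∀ g, wlen S g ≤ C * dlen g ∧ dlen g ≤ C * wlen S g := by
  obtain ⟨C, hC⟩ := burillo hR (w := w.word) (hS.image (iota w)) (by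
    rw [← MonoidHom.map_closure, h]
    exact le_antisymm (by rintro _ ⟨g, -, rfl⟩; exact iota_pth g) fun g hg =>
      (exists_iota hR hg).imp fun _ h => ⟨trivial, h⟩)
  obtain ⟨D, hD⟩ := (hS.image dlen).bddAbove
  have hl : ∀ l : List (DiagramGroup R w), (∀ s ∈ l, s ∈ S ∨ s⁻¹ ∈ S) →
      dlen l.prod ≤ D * l.length := fun l hl => by
    induction l with
    | nil => exact dlen_le hR (.nil _) (map_one _).symm
    | cons s l ih =>
      obtain ⟨p, h1, h2, h3⟩ := dlen_spec hR l.prod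
      obtain ⟨q, h4, h5, h6⟩ : ∃ q, TP R w.word w.word q ∧ q.length ≤ D ∧ ev R q = iota w s := by
        rcases hl s (by simp) with h | h
        · obtain ⟨q, k1, k2, k3⟩ := dlen_spec hR s
          exact ⟨q, k1, k2 ▸ hD ⟨_, h, rfl⟩, k3⟩
        · obtain ⟨q, k1, k2, k3⟩ := dlen_spec hR s⁻¹
          exact ⟨rv q, k1.rv, by simpa [rv, k2] using hD ⟨_, h, rfl⟩, by simp [ev_rv, k3]⟩
      have := dlen_le hR (g := (s :: l).prod) (h1.append h4) (by simp [ev_append, h3, h6])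
      have := ih fun t ht => hl t (by simp [ht])
      simp only [List.length_append, List.length_cons, mul_add] at *
      omega
  refine ⟨2 * C + D + 1, by omega, fun g => ⟨?_, ?_⟩⟩
  · obtain ⟨l, h1, h2, h3⟩ := dlen_spec hR g
    rcases l with _ | ⟨s, l⟩
    · exact (wlen_le (iota_inj hR w) S (n := 0) (Set.mem_one.2 h3.symm)).trans (Nat.zero_le _)
    · refine (wlen_le (iota_inj hR w) S (h3 ▸ hC _ h1)).trans ?_
      rw [← h2, List.length_cons]
      nlinarith
  · obtain ⟨l, h1, h2⟩ := Submonoid.exists_list_of_mem_closure (show g ∈ Submonoid.closure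
      (S ∪ S⁻¹) from Subgroup.closure_toSubmonoid S ▸ h.ge (Subgroup.mem_top g))
    obtain ⟨k, h3, h4, rfl⟩ := Nat.sInf_mem (s := {n | ∃ l : List (DiagramGroup R w),
      l.length = n ∧ (∀ s ∈ l, s ∈ S ∨ s⁻¹ ∈ S) ∧ l.prod = g}) ⟨_, l, rfl, h1, h2⟩
    exact (hl k h4).trans (Nat.mul_le_mul (by omega) h3.le)

end Pool.Agent.Results.MP_5cc51b_al.Burillo
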